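import Mathlib

set_option autoImplicit false

/-!
The Cheeger inequality for a finite weighted graph.
-/

namespace Pool.Agent.H231Z.QE

open Finset

variable {ι : Type} [DecidableEq ι]

theorem coarea (K : Finset ι) (ω : ι → ι → ℝ) (h : ℝ)
    (hc : ∀ B ⊆ K, 2 * B.card ≤ K.card → h * B.card ≤ ∑ k ∈ K \ B, ∑ l ∈ B, ω k l) (m : ℕ) :
    ∀ g : ι → ℝ, (∀ k, 0 ≤ g k) → (K.filter fun k => g k ≠ 0).card ≤ m →
      2 * (K.filter fun k => g k ≠ 0).card ≤ K.card →
      h * ∑ k ∈ K, g k ≤ ∑ k ∈ K, ∑ l ∈ K, ω k l * max (g l - g k) 0 := by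
  induction m with
  | zero =>
    intro g _ h1 _
    have h2 : ∀ k ∈ K, g k = 0 := by
      simpa [filter_eq_empty_iff] using h1
    rw [sum_eq_zero h2, mul_zero]
    exact le_of_eq (sum_eq_zero fun k hk => sum_eq_zero fun l hl => by simp [h2 k hk, h2 l hl]).symm
  | succ m ih =>
    intro g hg h1 h2
    set B := K.filter fun k => g k ≠ 0 with hB
    rcases B.eq_empty_or_nonempty with h0 | h0
    · exact ih g hg (by rw [← hB, h0]; simp) h2
    obtain ⟨k0, hk0, hmin⟩ := B.exists_min_image g h0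
    have hBK : B ⊆ K := filter_subset _ _
    have hz : ∀ k ∈ K, k ∉ B → g k = 0 := fun k hk hkB => by
      by_contra h3; exact hkB (mem_filter.2 ⟨hk, h3⟩)
    let g' : ι → ℝ := fun k => if k ∈ B then g k - g k0 else 0
    have hg' : ∀ k, 0 ≤ g' k := fun k => by
      simp only [g']; split_ifs with h3
      · exact sub_nonneg.2 (hmin k h3)
      · exact le_rfl
    have hsub : (K.filter fun k => g' k ≠ 0) ⊆ B.erase k0 := fun k hk => by
      have h3 := (mem_filter.1 hk).2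
      simp only [g'] at h3
      split_ifs at h3 with h4
      · exact mem_erase.2 ⟨fun h5 => h3 (by rw [h5, sub_self]), h4⟩
      · exact absurd rfl h3
    have hcard := card_le_card hsub
    rw [card_erase_of_mem hk0] at hcard
    have h4 := ih g' hg' (by omega) (by omega)
    have h5 := mul_le_mul_of_nonneg_left (hc B hBK h2) (hg k0)
    have e1 : ∑ k ∈ K, g k = ∑ k ∈ K, g' k + g k0 * B.card := by
      have : ∑ k ∈ K, (if k ∈ B then g k0 else 0) = g k0 * B.card := by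
        rw [sum_ite_mem, inter_eq_right.2 hBK, sum_const, nsmul_eq_mul, mul_comm]
      rw [← this, ← sum_add_distrib]
      refine sum_congr rfl fun k hk => ?_
      simp only [g']; split_ifs with h3
      · ring
      · rw [hz k hk h3, add_zero]
    have e2 : ∑ k ∈ K, ∑ l ∈ K, ω k l * max (g l - g k) 0 =
        ∑ k ∈ K, ∑ l ∈ K, ω k l * max (g' l - g' k) 0 + g k0 * ∑ k ∈ K \ B, ∑ l ∈ B, ω k l := by
      have : ∑ k ∈ K \ B, ∑ l ∈ B, ω k l =
          ∑ k ∈ K, if k ∉ B then ∑ l ∈ K, (if l ∈ B then ω k l else 0) else 0 := by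
        rw [← sum_filter, sdiff_eq_filter]
        refine sum_congr rfl fun k _ => ?_
        rw [sum_ite_mem, inter_eq_right.2 hBK]
      rw [this, mul_sum, ← sum_add_distrib]
      refine sum_congr rfl fun k hk => ?_
      by_cases h3 : k ∈ B
      · simp only [h3, not_true, if_false, mul_zero, add_zero]
        refine sum_congr rfl fun l hl => ?_
        by_cases h6 : l ∈ B
        · simp only [g', h3, h6, if_true, sub_sub_sub_cancel_right]
        · have := hg' k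
          have := hg k
          rw [hz l hl h6, max_eq_right (by linarith), max_eq_right]
          simp only [g', h6, if_false] at *
          linarith
      · simp only [h3, not_false_eq_true, if_true]
        rw [mul_sum, ← sum_add_distrib]
        refine sum_congr rfl fun l hl => ?_
        by_cases h6 : l ∈ B
        · simp only [g', h3, h6, if_true, if_false, hz k hk h3, sub_zero]
          rw [max_eq_left (hg l), max_eq_left (sub_nonneg.2 (hmin l h6))]
          ring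
        · simp [g', h3, h6, hz k hk h3, hz l hl h6]
    rw [e1, e2]
    nlinarith

theorem half (K : Finset ι) (ω : ι → ι → ℝ) (h R : ℝ) (hh : 0 < h) (hR : 0 < R)
    (h0 : ∀ k l, 0 ≤ ω k l) (hs : ∀ k l, ω k l = ω l k) (hr : ∀ k, ∑ l ∈ K, ω k l ≤ R)
    (hc : ∀ B ⊆ K, 2 * B.card ≤ K.card → h * B.card ≤ ∑ k ∈ K \ B, ∑ l ∈ B, ω k l)
    (φ : ι → ℝ) (hφ : 2 * (K.filter fun k => φ k ≠ 0).card ≤ K.card) :
    ∑ k ∈ K, φ k ^ 2 ≤ 4 * R / h ^ 2 * ∑ k ∈ K, ∑ l ∈ K, ω k l * (φ l - φ k) ^ 2 := by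
  have h1 := coarea K ω h hc _ (fun k => φ k ^ 2) (fun k => sq_nonneg _) le_rfl (by simpa using hφ)
  set t := 4 * R / h with ht
  have ht0 : 0 < t := by positivity
  have h2 : ∑ k ∈ K, ∑ l ∈ K, ω k l * max (φ l ^ 2 - φ k ^ 2) 0 ≤
      ∑ k ∈ K, ∑ l ∈ K, (t / 2 * (ω k l * (φ l - φ k) ^ 2) +
        (t⁻¹ * (ω k l * φ k ^ 2) + t⁻¹ * (ω l k * φ l ^ 2))) := by
    refine sum_le_sum fun k _ => sum_le_sum fun l _ => ?_
    have h3 : max (φ l ^ 2 - φ k ^ 2) 0 ≤
        t / 2 * (φ l - φ k) ^ 2 + t⁻¹ * (φ k ^ 2 + φ l ^ 2) := by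
      refine max_le ?_ (by positivity)
      have h4 : 0 ≤ t⁻¹ / 2 * (t * (φ l - φ k) - (φ l + φ k)) ^ 2 := by positivity
      have h5 : 0 ≤ t⁻¹ / 2 * (φ l - φ k) ^ 2 := by positivity
      have h6 : t⁻¹ / 2 * (t * (φ l - φ k) - (φ l + φ k)) ^ 2 =
          t / 2 * (φ l - φ k) ^ 2 - (φ l ^ 2 - φ k ^ 2) + t⁻¹ / 2 * (φ l + φ k) ^ 2 := by
        field_simp; ring
      nlinarith
    rw [hs l k]
    nlinarith [mul_le_mul_of_nonneg_left h3 (h0 k l)]
  simp only [sum_add_distrib, ← mul_sum] at h2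
  rw [sum_comm (f := fun k l => ω l k * φ l ^ 2)] at h2
  have h3 : ∑ k ∈ K, ∑ l ∈ K, ω k l * φ k ^ 2 ≤ R * ∑ k ∈ K, φ k ^ 2 := by
    rw [mul_sum]
    refine sum_le_sum fun k _ => ?_
    rw [← sum_mul]
    exact mul_le_mul_of_nonneg_right (hr k) (sq_nonneg _)
  have h4 := mul_le_mul_of_nonneg_left h3 (inv_pos.2 ht0).le
  have h5 : t⁻¹ * (R * ∑ k ∈ K, φ k ^ 2) = h / 4 * ∑ k ∈ K, φ k ^ 2 := by
    rw [ht]; field_simp
  have h6 : 4 * R / h ^ 2 = t / h := by rw [ht]; field_simp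
  rw [h6, div_mul_eq_mul_div, le_div_iff₀ hh]
  linarith

theorem median (K : Finset ι) (f : ι → ℝ) : ∃ c : ℝ,
    2 * (K.filter fun k => c < f k).card ≤ K.card ∧
      2 * (K.filter fun k => f k < c).card ≤ K.card := by
  rcases K.eq_empty_or_nonempty with rfl | hK
  · exact ⟨0, by simp, by simp⟩
  obtain ⟨a, ha, hmax⟩ := K.exists_max_image f hK
  obtain ⟨b, hb, hmin⟩ := (K.filter fun k => 2 * (K.filter fun l => f k < f l).card ≤
    K.card).exists_min_image f ⟨a, mem_filter.2 ⟨ha, by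
      rw [filter_eq_empty_iff.2 fun l hl => not_lt.2 (hmax l hl)]; simp⟩⟩
  refine ⟨f b, (mem_filter.1 hb).2, ?_⟩
  rcases (K.filter fun k => f k < f b).eq_empty_or_nonempty with h0 | h0
  · rw [h0]; simp
  obtain ⟨c, hc, hcm⟩ := exists_max_image _ f h0
  have h1 : ¬ 2 * (K.filter fun l => f c < f l).card ≤ K.card := fun h =>
    absurd (hmin c (mem_filter.2 ⟨(mem_filter.1 hc).1, h⟩)) (not_le.2 (mem_filter.1 hc).2)
  have h2 : (K.filter fun k => f k < f b).card ≤ (K.filter fun l => ¬ f c < f l).card :=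
    card_le_card fun k hk => mem_filter.2 ⟨(mem_filter.1 hk).1, not_lt.2 (hcm k hk)⟩
  have h3 := card_filter_add_card_filter_not (s := K) (fun l => f c < f l)
  omega

theorem cheeger (K : Finset ι) (ω : ι → ι → ℝ) (h R : ℝ) (hh : 0 < h) (hR : 0 < R)
    (h0 : ∀ k l, 0 ≤ ω k l) (hs : ∀ k l, ω k l = ω l k) (hr : ∀ k, ∑ l ∈ K, ω k l ≤ R)
    (hc : ∀ B ⊆ K, 2 * B.card ≤ K.card → h * B.card ≤ ∑ k ∈ K \ B, ∑ l ∈ B, ω k l)
    (f : ι → ℝ) : ∃ c : ℝ,
    ∑ k ∈ K, (f k - c) ^ 2 ≤ 8 * R / h ^ 2 * ∑ k ∈ K, ∑ l ∈ K, ω k l * (f l - f k) ^ 2 := by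
  obtain ⟨c, h1, h2⟩ := median K f
  have a1 := half K ω h R hh hR h0 hs hr hc (fun k => max (f k - c) 0) (by
    refine le_trans (Nat.mul_le_mul_left 2 (card_le_card fun k hk => ?_)) h1
    refine mem_filter.2 ⟨(mem_filter.1 hk).1, ?_⟩
    by_contra h3
    exact (mem_filter.1 hk).2 (max_eq_right (by linarith)))
  have a2 := half K ω h R hh hR h0 hs hr hc (fun k => max (c - f k) 0) (by
    refine le_trans (Nat.mul_le_mul_left 2 (card_le_card fun k hk => ?_)) h2
    refine mem_filter.2 ⟨(mem_filter.1 hk).1, ?_⟩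
    by_contra h3
    exact (mem_filter.1 hk).2 (max_eq_right (by linarith)))
  have lip : ∀ a b : ℝ, (max a 0 - max b 0) ^ 2 ≤ (a - b) ^ 2 := fun a b =>
    sq_le_sq.2 (abs_max_sub_max_le_abs a b 0)
  have hκ : 0 ≤ 4 * R / h ^ 2 := by positivity
  have b1 := a1.trans (mul_le_mul_of_nonneg_left (sum_le_sum fun k _ => sum_le_sum fun l _ =>
    mul_le_mul_of_nonneg_left ((lip _ _).trans_eq (by ring : _ = (f l - f k) ^ 2)) (h0 k l)) hκ)
  have b2 := a2.trans (mul_le_mul_of_nonneg_left (sum_le_sum fun k _ => sum_le_sum fun l _ =>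
    mul_le_mul_of_nonneg_left ((lip _ _).trans_eq (by ring : _ = (f l - f k) ^ 2)) (h0 k l)) hκ)
  refine ⟨c, ?_⟩
  have e : ∑ k ∈ K, (f k - c) ^ 2 =
      ∑ k ∈ K, max (f k - c) 0 ^ 2 + ∑ k ∈ K, max (c - f k) 0 ^ 2 := by
    rw [← sum_add_distrib]
    refine sum_congr rfl fun k _ => ?_
    rcases le_total (f k) c with h3 | h3
    · rw [max_eq_right (by linarith), max_eq_left (by linarith)]; ring
    · rw [max_eq_left (by linarith), max_eq_right (by linarith)]; ring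
  rw [e, show 8 * R / h ^ 2 = 4 * R / h ^ 2 + 4 * R / h ^ 2 by ring, add_mul]
  exact add_le_add b1 b2

end Pool.Agent.H231Z.QE
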