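import Pool.Agent.H231Z.QE.Cheeger
import Pool.Agent.H494Z.QE.Spec
import Pool.Agent.H726Z.NH.TH

set_option autoImplicit false
set_option linter.unusedSectionVars false

/-!
Removal of the non-expanding part of a corner and the Cheeger inequality.
-/

namespace Pool.Agent.H231Z.QE

open Matrix Finset Pool.Agent.H304Z.NH Pool.Agent.H494Z.QE
open Pool.Agent.H726Z.NH (D D_mul D_star D_sub D_smul D_one tr_D nsq_conj row_sum)
open scoped MatrixOrder ComplexOrder

variable {n : Type} [Fintype n] [DecidableEq n] {G : Type}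

/-- the weight of the edges between two corners -/
noncomputable def EE (u : G → Mat n) (S : Finset G) (a b : Mat n) : ℝ :=
  ∑ s ∈ S, (tr ((u s)ᴴ * a * u s * b) + tr ((u s)ᴴ * b * u s * a))

variable (u : G → Mat n) (S : Finset G)

theorem EE_symm (a b : Mat n) : EE u S a b = EE u S b a :=
  sum_congr rfl fun _ _ => add_comm _ _

theorem EE_add (a b c : Mat n) : EE u S a (b + c) = EE u S a b + EE u S a c := by
  simp only [EE, Matrix.mul_add, Matrix.add_mul, tr_add, sum_add_distrib]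
  ring

theorem EE_nonneg {a b : Mat n} (ha : IsProj a) (hb : IsProj b) : 0 ≤ EE u S a b :=
  sum_nonneg fun _ _ => add_nonneg (tr_mul_nonneg (conj_nonneg ha.nonneg _) hb.nonneg)
    (tr_mul_nonneg (conj_nonneg hb.nonneg _) ha.nonneg)

theorem w_eq {a b : Mat n} (ha : IsProj a) (hb : IsProj b) (x : Mat n) :
    tr (xᴴ * a * x * b) = nsq (a * x * b) := by
  rw [hb.nsq_mul, conjTranspose_mul, ha.1, Matrix.mul_assoc xᴴ a (a * x), ← Matrix.mul_assoc a a,
    ha.2, Matrix.mul_assoc xᴴ a x]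

theorem en_eq {U : Mat n} (hU : IsProj U) : en u S U = EE u S U (1 - U) := by
  refine sum_congr rfl fun s _ => ?_
  rw [w_eq hU hU.compl, w_eq hU.compl hU]
  have h1 : cm (u s) U = (1 - U) * u s * U - U * u s * (1 - U) := by unfold cm; noncomm_ring
  have h2 : ((1 - U) * u s * U)ᴴ * (U * u s * (1 - U)) = 0 := by
    have : (1 - U) * U = 0 := by rw [sub_mul, one_mul, hU.2, sub_self]
    rw [conjTranspose_mul, conjTranspose_mul, conjTranspose_sub, conjTranspose_one, hU.1]
    simp only [mul_assoc, ← mul_assoc (1 - U) U, this, zero_mul, mul_zero]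
  rw [h1, nsq_sub, h2, tr_zero]
  ring

theorem mul_left_of {U V : Mat n} (hU : IsProj U) (hV : IsProj V) (h : V * U = V) :
    U * V = V := by
  have := congrArg conjTranspose h
  rwa [conjTranspose_mul, hU.1, hV.1] at this

theorem proj_sub {U V : Mat n} (hU : IsProj U) (hV : IsProj V) (h : V * U = V) :
    IsProj (U - V) := by
  refine ⟨by rw [conjTranspose_sub, hU.1, hV.1], ?_⟩
  rw [sub_mul, mul_sub, mul_sub, hU.2, hV.2, h, mul_left_of hU hV h, sub_self, sub_zero]

/-- the corner after removal -/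
theorem removal {γ e : ℝ} (hγ : 0 < γ) {U : Mat n} (hU : IsProj U) (he : 0 < e)
    (he1 : e ≤ 1 / 10) (hexp : Expand u S γ e U) (hen : en u S U ≤ γ * e / 2 * tr U) :
    ∃ p : Mat n, IsProj p ∧ p * U = p ∧ (1 - e) * tr U ≤ tr p ∧ en u S p ≤ 3 * γ * e * tr U ∧
      ∀ V : Mat n, IsProj V → V * p = V → 2 * tr V ≤ tr p →
        γ / 8 * tr V ≤ EE u S V (p - V) := by
  have hn0 := hU.tr_nonneg
  have hout : ∀ V : Mat n, IsProj V → V * U = V → EE u S V (1 - U) ≤ γ * e / 2 * tr U := by
    intro V hV h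
    have h1 := EE_add u S (1 - U) V (U - V)
    have h2 := EE_nonneg u S hU.compl (proj_sub hU hV h)
    rw [add_sub_cancel, EE_symm, ← en_eq u S hU, EE_symm] at h1
    linarith
  have hf : ∀ V : Mat n, IsProj V → V * U = V → e * tr U ≤ tr V → tr V ≤ tr U / 2 →
      γ / 2 * tr V ≤ EE u S V (U - V) := by
    intro V hV h h1 h2
    have h3 := hexp V hV h h1 h2
    have h4 := EE_add u S V (U - V) (1 - U)
    rw [sub_add_sub_cancel', ← en_eq u S hV] at h4
    have h5 := hout V hV h
    nlinarith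
  let A : Set ℕ := {k | ∃ V : Mat n, IsProj V ∧ V * U = V ∧ tr V = k ∧ tr V ≤ e * tr U ∧
    EE u S V (U - V) ≤ γ / 8 * tr V}
  have hA : A.Nonempty := ⟨0, 0, isProj_zero, by simp, by simp [tr_zero],
    by rw [tr_zero]; positivity, by simp [EE, tr_zero]⟩
  have hB : BddAbove A := ⟨⌈e * tr U⌉₊, fun k ⟨V, _, _, h1, h2, _⟩ => by
    have := (h1 ▸ h2).trans (Nat.le_ceil _)
    exact_mod_cast this⟩
  obtain ⟨V0, hV0, h0U, h0k, h0e, h0f⟩ := Nat.sSup_mem hA hB
  have hp := proj_sub hU hV0 h0U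
  have hU0 := mul_left_of hU hV0 h0U
  have hpU : (U - V0) * U = U - V0 := by rw [sub_mul, hU.2, h0U]
  have htp : tr (U - V0) = tr U - tr V0 := tr_sub _ _
  have ht0 := hV0.tr_nonneg
  refine ⟨U - V0, hp, hpU, by linarith, ?_, fun V hV hVp hV2 => ?_⟩
  · have h1 := EE_add u S (U - V0) V0 (1 - U)
    rw [show V0 + (1 - U) = 1 - (U - V0) by abel, ← en_eq u S hp, EE_symm] at h1
    have h2 := hout _ hp hpU
    have h3 : 0 ≤ γ * e * tr U := by positivity
    nlinarith
  by_contra hcon
  push Not at hcon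
  have hg := EE_nonneg u S hV (proj_sub hp hV hVp)
  have hVpos : 0 < tr V := by
    by_contra h
    nlinarith
  have hVV0 : V * V0 = 0 := by
    rw [← hVp, mul_assoc, sub_mul, hU0, hV0.2, sub_self, mul_zero]
  have hV0V : V0 * V = 0 := by
    have := congrArg conjTranspose hVV0
    rwa [conjTranspose_mul, hV.1, hV0.1, conjTranspose_zero] at this
  have hW : IsProj (V0 + V) := ⟨by rw [conjTranspose_add, hV.1, hV0.1], by
    rw [add_mul, mul_add, mul_add, hVV0, hV0V, hV.2, hV0.2, add_zero, zero_add]⟩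
  have hVU : V * U = V := by rw [← hVp, mul_assoc, hpU]
  have hWU : (V0 + V) * U = V0 + V := by rw [add_mul, h0U, hVU]
  have htW : tr (V0 + V) = tr V0 + tr V := tr_add _ _
  have hfW : EE u S (V0 + V) (U - (V0 + V)) ≤ γ / 8 * tr (V0 + V) := by
    have h1 := EE_add u S (U - V0 - V) V0 V
    have h2 := EE_add u S V0 (U - V0 - V) V
    have h3 := EE_nonneg u S hV0 hV
    rw [sub_add_cancel, EE_symm u S V0 (U - V0 - V)] at h2
    rw [EE_symm u S _ V] at h1
    rw [← sub_sub, EE_symm, h1, htW]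
    linarith
  by_cases c1 : tr (V0 + V) ≤ e * tr U
  · obtain ⟨k, hk⟩ := hW.tr_nat
    have h1 : k ≤ sSup A := le_csSup hB ⟨_, hW, hWU, hk, c1, hfW⟩
    have h2 : (k : ℝ) ≤ (sSup A : ℕ) := by exact_mod_cast h1
    linarith
  by_cases c2 : tr (V0 + V) ≤ tr U / 2
  · have := hf _ hW hWU (le_of_not_ge c1) c2
    nlinarith
  · have h1 : tr (U - (V0 + V)) = tr U - tr (V0 + V) := tr_sub _ _
    have h2 : e * tr U ≤ 1 / 10 * tr U := mul_le_mul_of_nonneg_right he1 hn0
    have h3 := hf _ (proj_sub hU hW hWU) (by rw [sub_mul, hU.2, hWU]) (by linarith) (by linarith)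
    rw [sub_sub_cancel, EE_symm] at h3
    nlinarith

theorem diag {x : Mat n} (hx : xᴴ = x) : ∃ (V : Mat n) (lam : n → ℝ), IsU V ∧ x = D V lam := by
  have hH : x.IsHermitian := hx
  refine ⟨hH.eigenvectorUnitary, hH.eigenvalues, ⟨by
    simpa [star_eq_conjTranspose] using (Unitary.coe_star_mul_self hH.eigenvectorUnitary), by
    simpa [star_eq_conjTranspose] using (Unitary.coe_mul_star_self hH.eigenvectorUnitary)⟩, ?_⟩
  have := hH.spectral_theorem
  rw [Unitary.conjStarAlgAut_apply] at this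
  exact this

theorem D_shift {V : Mat n} (hV : IsU V) (f : n → ℝ) (M : ℝ) :
    D V f - M • (1 : Mat n) = D V (fun i => f i - M) := by
  rw [← D_one hV, D_smul, D_sub]; simp

theorem diag2 {p y : Mat n} (hp : IsProj p) (hy : yᴴ = y) (hpy : p * y = y) (hyp : y * p = y) :
    ∃ (V : Mat n) (K : Finset n) (f : n → ℝ), IsU V ∧
      p = D V (fun i => if i ∈ K then 1 else 0) ∧ y = D V (fun i => if i ∈ K then f i else 0) := by
  obtain ⟨V', mu, hV', hmu⟩ := diag hy
  obtain ⟨M, hM⟩ := Infinite.exists_notMem_finset (univ.image mu)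
  have hM' : ∀ i, mu i - M ≠ 0 := fun i h =>
    hM (mem_image.2 ⟨i, mem_univ _, sub_eq_zero.1 h⟩)
  have hinv : D V' (fun i => (mu i - M)⁻¹) * (y - M • 1) = 1 := by
    rw [hmu, D_shift hV', D_mul hV', ← D_one hV']
    congr 1
    funext i
    exact inv_mul_cancel₀ (hM' i)
  obtain ⟨V, lam, hV, hlam⟩ := diag (x := y + M • (1 - p))
    (by rw [conjTranspose_add, rsmul_star, hy, hp.compl.1])
  have hx : D V (fun i => lam i - M) = y - M • p := by
    rw [← D_shift hV, ← hlam, smul_sub]; abel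
  set K := univ.filter fun i => lam i ≠ M with hK
  set q := D V (fun i => if i ∈ K then 1 else 0) with hq
  have h1 : p * q = q := by
    have e : q = (y - M • p) * D V (fun i => (lam i - M)⁻¹) := by
      rw [← hx, D_mul hV, hq]
      congr 1
      funext i
      by_cases h : lam i = M
      · simp [hK, h]
      · simp [hK, h, mul_inv_cancel₀ (sub_ne_zero.2 h)]
    rw [e, ← mul_assoc, mul_sub, hpy, Matrix.mul_smul, hp.2]
  have h2 : p * (1 - q) = 0 := by
    have e : (y - M • p) * (1 - q) = 0 := by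
      rw [mul_sub, mul_one, ← hx, hq, D_mul hV, sub_eq_zero]
      congr 1
      funext i
      by_cases h : lam i = M <;> simp [hK, h]
    have e2 : (y - M • 1) * p = y - M • p := by rw [sub_mul, hyp, Matrix.smul_mul, one_mul]
    have e3 := congrArg (· * (p * (1 - q))) hinv
    simp only [one_mul] at e3
    rw [← e3, mul_assoc, ← mul_assoc _ p, e2, e, mul_zero]
  have h3 : p = q := by rw [mul_sub, mul_one, h1, sub_eq_zero] at h2; exact h2
  refine ⟨V, K, lam, hV, h3, ?_⟩
  have h4 : y = p * (y + M • (1 - p)) := by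
    rw [mul_add, hpy, Matrix.mul_smul, mul_sub, mul_one, hp.2, sub_self, smul_zero, add_zero]
  rw [h4, hlam, h3, hq, D_mul hV]
  congr 1
  funext i
  split_ifs <;> simp

theorem ent {V : Mat n} (hV : IsU V) (a b : n → ℝ) (x : Mat n) (k l : n) :
    ‖(Vᴴ * (D V a * x * D V b) * V) k l‖ ^ 2 = a k ^ 2 * b l ^ 2 * ‖(Vᴴ * x * V) k l‖ ^ 2 := by
  have e : Vᴴ * (D V a * x * D V b) * V =
      diagonal (fun i => (a i : ℂ)) * (Vᴴ * x * V) * diagonal (fun i => (b i : ℂ)) := by
    unfold D
    calc _ = (Vᴴ * V) * diagonal (fun i => (a i : ℂ)) * (Vᴴ * x * V) *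
          diagonal (fun i => (b i : ℂ)) * (Vᴴ * V) := by simp only [Matrix.mul_assoc]
      _ = _ := by rw [hV.1, Matrix.one_mul, Matrix.mul_one]
  rw [e, mul_diagonal, diagonal_mul, norm_mul, norm_mul, Complex.norm_real, Complex.norm_real,
    mul_pow, mul_pow, Real.norm_eq_abs, Real.norm_eq_abs, sq_abs, sq_abs]
  ring

theorem D_proj {V : Mat n} (hV : IsU V) (B : Finset n) :
    IsProj (D V (fun i => if i ∈ B then 1 else 0)) := by
  refine ⟨D_star _ _, ?_⟩
  rw [D_mul hV]
  congr 1
  funext i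
  split_ifs <;> simp

theorem nsq_block {V : Mat n} (hV : IsU V) (A B : Finset n) (x : Mat n) :
    nsq (D V (fun i => if i ∈ A then 1 else 0) * x * D V (fun i => if i ∈ B then 1 else 0)) =
      ∑ k ∈ A, ∑ l ∈ B, ‖(Vᴴ * x * V) k l‖ ^ 2 := by
  rw [← nsq_conj hV.star, conjTranspose_conjTranspose, Pool.Agent.H726Z.NH.nsq_eq]
  simp only [ent hV, ite_pow, one_pow, ne_eq, OfNat.ofNat_ne_zero, not_false_eq_true, zero_pow,
    ite_mul, mul_ite, one_mul, zero_mul, mul_zero, mul_one]
  rw [← sum_ite_mem_eq A]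
  refine sum_congr rfl fun k _ => ?_
  split_ifs
  · rw [sum_ite_mem_eq]
  · simp

theorem poincare {h : ℝ} (hh : 0 < h) (hu : ∀ g, IsU (u g)) {p : Mat n} (hp : IsProj p)
    (hc : ∀ V : Mat n, IsProj V → V * p = V → 2 * tr V ≤ tr p → h * tr V ≤ EE u S V (p - V)) :
    PI u S (16 * (2 * S.card + 1) / h ^ 2) p := by
  intro z hz hpz
  obtain ⟨V, K, f, hV, hpD, hyD⟩ := diag2 (y := p * z) hp
    (by rw [conjTranspose_mul, hz, hp.1, hpz]) (by rw [← mul_assoc, hp.2])
    (by rw [mul_assoc, ← hpz, ← mul_assoc, hp.2])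
  let T : G → n → n → ℝ := fun s k l => ‖(Vᴴ * u s * V) k l‖ ^ 2
  have htr : ∀ B : Finset n, tr (D V (fun i => if i ∈ B then 1 else 0)) = B.card := fun B => by
    rw [tr_D hV, sum_ite_mem_eq]; simp
  obtain ⟨c, hcc⟩ := cheeger K (fun k l => ∑ s ∈ S, (T s k l + T s l k)) h (2 * S.card + 1) hh
    (by positivity) (fun k l => sum_nonneg fun s _ => by positivity)
    (fun k l => sum_congr rfl fun s _ => add_comm _ _)
    (fun k => by
      rw [sum_comm]
      have : ∑ s ∈ S, ∑ l ∈ K, (T s k l + T s l k) ≤ ∑ _s ∈ S, (2 : ℝ) := by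
        refine sum_le_sum fun s _ => ?_
        have h1 := row_sum hV (hu s) k
        have h2 := row_sum hV (hu s).star k
        have h3 : ∀ l, ‖(Vᴴ * (u s)ᴴ * V) k l‖ ^ 2 = T s l k := fun l => by
          have : Vᴴ * (u s)ᴴ * V = (Vᴴ * u s * V)ᴴ := by
            rw [conjTranspose_mul, conjTranspose_mul, conjTranspose_conjTranspose, mul_assoc]
          rw [this, conjTranspose_apply, norm_star]
        simp only [h3] at h2
        refine (sum_le_sum_of_subset_of_nonneg (subset_univ K) fun l _ _ => by positivity).trans ?_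
        rw [sum_add_distrib, h2]
        linarith
      rw [sum_const, nsmul_eq_mul] at this
      linarith)
    (fun B hB hB2 => by
      have e : p - D V (fun i => if i ∈ B then 1 else 0) =
          D V (fun i => if i ∈ K \ B then 1 else 0) := by
        rw [hpD, D_sub]
        congr 1
        funext i
        by_cases h1 : i ∈ B
        · simp [h1, hB h1]
        · simp [h1]
      have h1 := hc _ (D_proj hV B) (by
        rw [hpD, D_mul hV]
        congr 1
        funext i
        by_cases h1 : i ∈ B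
        · simp [h1, hB h1]
        · simp [h1]) (by rw [hpD, htr, htr]; exact_mod_cast hB2)
      rw [htr, e] at h1
      refine h1.trans (le_of_eq ?_)
      simp only [EE, w_eq (D_proj hV _) (D_proj hV _), nsq_block hV]
      rw [sum_congr rfl fun k _ => sum_comm, sum_comm (s := K \ B)]
      refine sum_congr rfl fun s _ => ?_
      rw [sum_comm (s := B), add_comm, ← sum_add_distrib]
      refine sum_congr rfl fun k _ => ?_
      rw [← sum_add_distrib]) f
  refine ⟨c, ?_⟩
  have e1 : nsq (p * z - c • p) = ∑ k ∈ K, (f k - c) ^ 2 := by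
    rw [hyD, hpD, D_smul, D_sub, nsq_eq, D_star, D_mul hV, tr_D hV, ← sum_ite_mem_eq K]
    refine sum_congr rfl fun k _ => ?_
    split_ifs <;> ring
  have e2 : ∀ s, ∑ k ∈ K, ∑ l ∈ K, T s k l * (f l - f k) ^ 2 ≤ nsq (cm (u s) z) := by
    intro s
    have h1 : cm (p * u s * p) (p * z) = p * cm (u s) z * p := by
      have h2 : p * (p * z) = z * p := by rw [← mul_assoc, hp.2, hpz]
      have h3 : p * z * p = p * z := by rw [mul_assoc, ← hpz, ← mul_assoc, hp.2]
      unfold cm
      rw [mul_assoc (p * u s), h2, ← mul_assoc (p * z), ← mul_assoc (p * z), h3]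
      noncomm_ring
    have h4 := (nsq_mul_le_right hp.mul_star_le (p * cm (u s) z)).trans
      (nsq_mul_le_left hp.star_mul_le _)
    rw [← h1, hyD, Pool.Agent.H726Z.NH.nsq_cm hV, hpD] at h4
    refine le_trans (le_of_eq ?_) h4
    simp only [ent hV]
    rw [← sum_ite_mem_eq K]
    refine sum_congr rfl fun k _ => ?_
    split_ifs with hk
    · rw [← sum_ite_mem_eq K]
      refine sum_congr rfl fun l _ => ?_
      split_ifs <;> simp [T]
    · simp
  have e3 : ∑ k ∈ K, ∑ l ∈ K, (∑ s ∈ S, (T s k l + T s l k)) * (f l - f k) ^ 2 ≤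
      2 * en u S z := by
    simp only [sum_mul]
    rw [sum_congr rfl fun k _ => sum_comm, sum_comm (s := K), en, mul_sum]
    refine sum_le_sum fun s _ => ?_
    simp only [add_mul, sum_add_distrib]
    rw [sum_comm (f := fun k l => T s l k * (f l - f k) ^ 2)]
    have h5 : ∑ k ∈ K, ∑ l ∈ K, T s k l * (f k - f l) ^ 2 =
        ∑ k ∈ K, ∑ l ∈ K, T s k l * (f l - f k) ^ 2 :=
      sum_congr rfl fun k _ => sum_congr rfl fun l _ => by ring
    linarith [e2 s]
  rw [e1]
  refine hcc.trans ((mul_le_mul_of_nonneg_left e3 (by positivity)).trans (le_of_eq ?_))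
  ring

theorem exp : S_EXP := by
  intro G S γ hγ
  refine ⟨16 * (2 * S.card + 1) / (γ / 8) ^ 2, by positivity, ?_⟩
  intro n _ _ u hu U e hU he he1 hexp hen
  obtain ⟨p, hp, h1, h2, h3, h4⟩ := removal u S hγ hU he he1 hexp hen
  exact ⟨p, hp, h1, h2, h3, poincare u S (by positivity) hu hp h4⟩

end Pool.Agent.H231Z.QE
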